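import Pool.Agent.W192.CM.Parts2
import Pool.Agent.W192.CM.Asm

/-!
# Assembly of the project CM, Hecke characters of infinity type `(2m - 1, 0)`
-/

set_option autoImplicit false

open Complex Filter Topology Set

namespace Pool.Agent.W192.CM

open Pool.Agent.W192.CY (VW Vk K_VK)

theorem asm2 (hbasic : C_BASIC) (hgauss : C_GAUSS) (hvk : K_VK) (hafe : D_AFE) (hfinn : D_FINN)
    {R : Subring ℂ} {ω : ℂ} (hR : CMRing R ω) (m : ℕ) (hm : 1 ≤ m) (φ : R) (hφ : φ ≠ 0)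
    (ε : MulChar (Aq R φ) ℂ) (hε : Prim ε)
    (hu : ∀ u : R, IsUnit u → ev ε u * (u : ℂ) ^ (2 * m - 1) = 1) :
    ∃ L : (κ : R) → MulChar (Aq R κ) ℂ → ℂ → ℂ,
      (∀ (κ : R) (χ : MulChar (Aq R κ) ℂ), κ ≠ 0 → IsCoprime φ κ → Prim χ →
        (∀ u : R, IsUnit u → ev χ u = 1) →
        Differentiable ℂ (L κ χ) ∧ ∀ s : ℂ, (m : ℝ) + 1 / 2 < s.re →
          HasSum (fun α : R => ev ε α * ev χ α * (α : ℂ) ^ (2 * m - 1) *
            (‖(α : ℂ)‖ : ℂ) ^ (-2 * s)) ((nu R : ℂ) * L κ χ s)) ∧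
      ∀ M : ℕ, 1 ≤ M → ∀ δ : ℝ, 0 < δ → ∃ N0 : ℝ, ∀ κ : R, κ ≠ 0 → N0 ≤ Complex.normSq (κ : ℂ) →
        IsCoprime φ κ → ∀ χ : MulChar (Aq R κ) ℂ, Prim χ → (∀ u : R, IsUnit u → ev χ u = 1) →
          (Complex.normSq (κ : ℂ)) ^ (2 / 3 + δ) ≤ orderOf χ →
          ∃ a : ℕ, Nat.Coprime a (orderOf χ) ∧ a ≡ 1 [MOD M] ∧ Prim (χ ^ a) ∧
            (∀ u : R, IsUnit u → ev (χ ^ a) u = 1) ∧
            (Complex.normSq (κ : ℂ)) ^ (-δ) ≤ ‖L κ (χ ^ a) m‖ := by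
  obtain ⟨hb1, hb2, hb3, hb4, hb5⟩ := hbasic R ω hR
  haveI : Finite (Aq R φ) := (hb5 φ hφ).1
  haveI := hb4
  have hnu : (nu R : ℂ) ≠ 0 := by
    have : nu R ≠ 0 := Nat.card_pos.ne'
    exact_mod_cast this
  have hone : 1 ≤ 2 * m - 1 := by omega
  set g : R → ℂ := fun α => ev ε α * (α : ℂ) ^ (2 * m - 1) /
    (Complex.normSq (α : ℂ) : ℂ) ^ (m - 1) with hg
  have hgd : Gd R g := by
    refine ⟨?_, fun α β => ?_, fun u h => ?_, fun α => ?_⟩
    · simp only [hg, Subring.coe_zero]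
      rw [zero_pow (by omega), mul_zero, zero_div]
    · simp only [hg, ev_mul, Subring.coe_mul, map_mul, Complex.ofReal_mul, mul_pow]
      rw [mul_mul_mul_comm, mul_div_mul_comm]
    · have h1 : Complex.normSq (u : ℂ) = 1 := (hb2 u).mp h
      simp only [hg, h1, Complex.ofReal_one, one_pow, div_one]
      exact hu u h
    · simp only [hg, norm_div, norm_mul, norm_pow, Complex.norm_real, Real.norm_eq_abs,
        abs_of_nonneg (Complex.normSq_nonneg _)]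
      rcases eq_or_ne (α : ℂ) 0 with h0 | h0
      · rw [h0, norm_zero, zero_pow (by omega), mul_zero, zero_div]
      · have hp : 0 < ‖(α : ℂ)‖ := norm_pos_iff.mpr h0
        rw [Complex.normSq_eq_norm_sq, ← pow_mul, div_le_iff₀ (pow_pos hp _), ← pow_succ',
          show 2 * (m - 1) + 1 = 2 * m - 1 by omega]
        exact mul_le_of_le_one_left (pow_nonneg hp.le _) (norm_ev_le ε α)
  have hφn : 0 < Complex.normSq (φ : ℂ) := Complex.normSq_pos.mpr (by simpa using hφ)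
  set c0 : ℝ := ω.im ^ 2 * Complex.normSq (φ : ℂ) / Real.pi ^ 2 with hc0
  have hc0p : 0 < c0 := by
    have := hR.im
    positivity
  obtain ⟨CV, hCV⟩ := hvk m hm
  classical
  have hex : ∀ (κ : R) (χ : MulChar (Aq R κ) ℂ), ∃ F : ℂ → ℂ,
      (κ ≠ 0 → IsCoprime φ κ → Prim χ → (∀ u : R, IsUnit u → ev χ u = 1) →
        Differentiable ℂ F ∧
        (∀ s : ℂ, (m : ℝ) + 1 / 2 < s.re →
          HasSum (fun α : R => ev ε α * ev χ α * (α : ℂ) ^ (2 * m - 1) *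
            (‖(α : ℂ)‖ : ℂ) ^ (-2 * s)) ((nu R : ℂ) * F s)) ∧
        (∀ (_ : Finite (Aq R κ)), ∀ X Y : ℝ, 0 < X → 0 < Y →
          X * Y = c0 * Complex.normSq (κ : ℂ) →
          F m = smov (Vk m) g X χ +
            ((φ : ℂ) ^ (2 * m - 1) * gs ω φ ε / (‖(φ : ℂ)‖ : ℂ) ^ (2 * m)) *
            (ev ε κ * (κ : ℂ) ^ (2 * m - 1) / (‖(κ : ℂ)‖ : ℂ) ^ (2 * m - 1)) *
            (ev χ φ * gs ω κ χ / (‖(κ : ℂ)‖ : ℂ)) *
            (starRingEnd ℂ) (smov (Vk m) g Y χ))) := by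
    intro κ χ
    by_cases h : κ ≠ 0 ∧ IsCoprime φ κ ∧ Prim χ ∧ ∀ u : R, IsUnit u → ev χ u = 1
    · obtain ⟨h1, h2, h3, h4⟩ := h
      haveI : Finite (Aq R κ) := (hb5 κ h1).1
      obtain ⟨F, hF1, hF2, hF3⟩ := hafe R ω hR φ κ m ε χ ⟨hm, hφ, h1, h2, hε, h3, hu, h4⟩
      refine ⟨F, fun _ _ _ _ => ⟨hF1, fun s hs => ?_, fun _ X Y hX hY hXY => ?_⟩⟩
      · obtain ⟨hs1, hs2⟩ := hF2 s hs
        have hs3 : Summable (fun α : R => ev ε α * ev χ α * (α : ℂ) ^ (2 * m - 1) *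
            (‖(α : ℂ)‖ : ℂ) ^ (-2 * s)) := by
          refine Summable.of_norm_bounded hs1 (fun α => ?_)
          rw [mul_assoc, norm_mul, norm_mul]
          have h5 := norm_ev_le ε α
          have h6 := norm_ev_le χ α
          have h7 : ‖ev ε α‖ * ‖ev χ α‖ ≤ 1 := mul_le_one₀ h5 (norm_nonneg _) h6
          exact mul_le_of_le_one_left (norm_nonneg _) h7
        have h8 := hs3.hasSum
        rw [hs2, ← mul_assoc, mul_one_div_cancel hnu, one_mul]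
        exact h8
      · rw [hF3 X Y hX hY (by rw [hXY, hc0]; ring)]
        have h9 : (starRingEnd ℂ) (smov (Vk m) g Y χ) = (1 / (nu R : ℂ)) *
            ∑' α : R, (starRingEnd ℂ) (ev χ α * (ev ε α * (α : ℂ) ^ (2 * m - 1) /
              (Complex.normSq (α : ℂ) : ℂ) ^ (m - 1))) /
              (Complex.normSq (α : ℂ) : ℂ) *
              (Vk m (Complex.normSq (α : ℂ) / Y) : ℂ) := by
          unfold smov
          rw [map_mul, Complex.conj_tsum, map_div₀, map_one, Complex.conj_natCast]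
          congr 1
          refine tsum_congr (fun α => ?_)
          rw [map_mul, map_div₀, Complex.conj_ofReal, Complex.conj_ofReal]
        rw [h9]
        unfold smov Wn
        simp only [hg]
        ring
    · exact ⟨fun _ => 0, fun h1 h2 h3 h4 => absurd ⟨h1, h2, h3, h4⟩ h⟩
  choose F hF using hex
  refine ⟨F, ?_, ?_⟩
  · intro κ χ h1 h2 h3 h4
    exact ⟨(hF κ χ h1 h2 h3 h4).1, (hF κ χ h1 h2 h3 h4).2.1⟩
  · intro M hM δ hδ
    obtain ⟨q0, h0⟩ := hfinn (Vk m) CV hCV R ω hR g hgd c0 hc0p M hM δ hδ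
    refine ⟨q0, fun κ h1 hN h2 χ h3 h4 hord => ?_⟩
    haveI : Finite (Aq R κ) := (hb5 κ h1).1
    have hw : ‖((φ : ℂ) ^ (2 * m - 1) * gs ω φ ε / (‖(φ : ℂ)‖ : ℂ) ^ (2 * m)) *
        (ev ε κ * (κ : ℂ) ^ (2 * m - 1) / (‖(κ : ℂ)‖ : ℂ) ^ (2 * m - 1))‖ = 1 := by
      have hg1 := (hgauss R ω hR φ hφ ε hε).1
      have hφ1 : 0 < ‖(φ : ℂ)‖ := norm_pos_iff.mpr (by simpa using hφ)
      have hκ1 : 0 < ‖(κ : ℂ)‖ := norm_pos_iff.mpr (by simpa using h1)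
      rw [norm_mul, norm_div, norm_div, norm_mul, norm_mul, hg1,
        norm_ev_unit ε (unit_of_cop h2.symm), one_mul, norm_pow, norm_pow, norm_pow, norm_pow,
        Complex.norm_real, Complex.norm_real, norm_norm, norm_norm, ← pow_succ,
        show 2 * m - 1 + 1 = 2 * m by omega, div_self (pow_ne_zero _ hφ1.ne'),
        div_self (pow_ne_zero _ hκ1.ne'), mul_one]
    exact h0 κ φ h1 h2 hN _ hw (fun χ => F κ χ m)
      (fun χ h5 h6 X Y hX hY hXY => (hF κ χ h1 h2 h5 h6).2.2 _ X Y hX hY hXY) χ h3 h4 hord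

end Pool.Agent.W192.CM
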